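import Pool.Agent.W838.DC.Stm3
import Pool.Agent.W838.DC.Basic

/-! # `S_E3`: an indecomposable root above `x` is a simple root above `x` plus roots of `N x` -/

set_option autoImplicit false

namespace Pool.Agent.W293.DC

open Pool.Agent.W838.DC Pool.Agent.W838.DC.Sys

variable {V X : Type*} [AddCommGroup V] (σ : Sys V X)

theorem ip_of_add {z b n : V} (hz : z ∈ σ.Φ) (hb : b ∈ σ.Φ) (hn : n ∈ σ.Φ) (h : z = b + n) :
    σ.ip b n = -1 := by
  have h1 := σ.ip_self z hz
  rw [h, σ.ip_add, σ.ip_add_right, σ.ip_add_right, σ.ip_self b hb, σ.ip_self n hn,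
    σ.ip_symm n b] at h1
  omega

theorem aux (x : X) (z : V) (hz : σ.R x z) (hi : Indec σ x z) :
    ∀ (k : ℕ) (b n : V), (σ.ht b).toNat ≤ k → σ.R x b → σ.N x n → z = b + n →
      ∃ b0, σ.R x b0 ∧ Indec σ x b0 ∧ σ.ht b0 ≤ σ.ht b ∧ σ.N x (z - b0) := by
  intro k
  induction k with
  | zero =>
    intro b n hk hb _ _
    have := hb.2.1
    omega
  | succ k ih =>
    intro b n hk hb hn hzb
    by_cases hbi : Indec σ x b
    · refine ⟨b, hb, hbi, le_rfl, ?_⟩
      rw [hzb, add_sub_cancel_left]
      exact hn
    · have : ∃ c d, σ.R x c ∧ σ.R x d ∧ c + d = b := by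
        by_contra hne
        exact hbi fun c d hc hd h => hne ⟨c, d, hc, hd, h.symm⟩
      obtain ⟨c, d, hc, hd, hcd⟩ := this
      have key : ∀ c d, σ.R x c → σ.R x d → c + d = b → σ.ip n c = -1 →
          ∃ b0, σ.R x b0 ∧ Indec σ x b0 ∧ σ.ht b0 ≤ σ.ht b ∧ σ.N x (z - b0) := by
        intro c d hc hd hcd hnc
        have hht : σ.ht c + σ.ht d = σ.ht b := by rw [← hcd, map_add]
        have hc1 := hc.2.1
        have hd1 := hd.2.1
        have hn1 := hn.2.1
        have hm : n + c ∈ σ.Φ := σ.add_mem hn.1 hc.1 hnc
        have hp : 0 < σ.ht (n + c) := by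
          rw [map_add]
          omega
        have hN : σ.N x (n + c) := by
          rcases σ.R_or_N x hm hp with h | h
          · exact absurd (by rw [hzb, ← hcd]; abel) (hi (n + c) d h hd)
          · exact h
        obtain ⟨b0, h1, h2, h3, h4⟩ := ih d (n + c) (by omega) hd hN (by
          rw [hzb, ← hcd]
          abel)
        exact ⟨b0, h1, h2, by omega, h4⟩
      have hbn := ip_of_add σ hz.1 hb.1 hn.1 hzb
      have h1 : σ.ip n c + σ.ip n d = -1 := by
        rw [← σ.ip_add_right, hcd, σ.ip_symm, hbn]
      have h2 := σ.ip_ge hn.1 hc.1 hn.2.1 hc.2.1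
      have h3 := σ.ip_ge hn.1 hd.1 hn.2.1 hd.2.1
      by_cases h4 : σ.ip n c = -1
      · exact key c d hc hd hcd h4
      · have h5 : σ.ip n d = -1 := by
          have hcases := σ.ip_cases hn.1 hc.1
          have hcases' := σ.ip_cases hn.1 hd.1
          rcases hcases with h | h | h | h | h
          · exfalso
            rw [h, σ.ip_self c hc.1] at h1
            rcases hcases' with g | g | g | g | g
            · rw [← g, h, σ.ip_self c hc.1] at h1
              omega
            · have := hn.2.1
              rw [g, map_neg] at this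
              have := hd.2.1
              omega
            · rw [← h] at h1
              omega
            · rw [← h] at h1
              omega
            · rw [← h] at h1
              omega
          · have := hn.2.1
            rw [h, map_neg] at this
            have := hc.2.1
            omega
          · omega
          · omega
          · omega
        exact key d c hd hc (by rw [add_comm, hcd]) h5

theorem e3aux : ∀ (k : ℕ) (x : X) (z : V), (σ.ht z).toNat ≤ k → σ.R x z → Indec σ x z →
    ∃ s ∈ σ.S, σ.R x s ∧ z - s ∈ AddSubmonoid.closure {n : V | σ.N x n} := by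
  intro k
  induction k with
  | zero =>
    intro x z hk hz _
    have := hz.2.1
    omega
  | succ k ih =>
    intro x z hk hz hi
    rcases σ.S_ex z hz.1 hz.2.1 with hs | ⟨s, hs, hzs⟩
    · exact ⟨z, hs, hz, by rw [sub_self]; exact AddSubmonoid.zero_mem _⟩
    · obtain ⟨hsm, hs1⟩ := σ.S_sub s hs
      have hm : z - s ∈ σ.Φ := σ.sub_mem hz.1 hsm hzs
      have hh : σ.ht (z - s) = σ.ht z - 1 := by rw [map_sub, hs1]
      have hne := σ.ht_ne _ hm
      have hz1 := hz.2.1
      have hp : 0 < σ.ht (z - s) := by omega
      rcases σ.R_or_N x hsm (by omega) with h | h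
      · refine ⟨s, hs, h, AddSubmonoid.subset_closure ?_⟩
        rcases σ.R_or_N x hm hp with h' | h'
        · exact absurd (by abel) (hi s (z - s) h h')
        · exact h'
      · rcases σ.R_or_N x hm hp with h' | h'
        · obtain ⟨b0, h1, h2, h3, h4⟩ := aux σ x z hz hi _ (z - s) s le_rfl h' h (by abel)
          obtain ⟨s0, h5, h6, h7⟩ := ih x b0 (by omega) h1 h2
          refine ⟨s0, h5, h6, ?_⟩
          have e : z - s0 = (z - b0) + (b0 - s0) := by abel
          rw [e]
          exact AddSubmonoid.add_mem _ (AddSubmonoid.subset_closure h4) h7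
        · exfalso
          have h8 := hz.2.2
          have h9 := h.2.2
          have h10 := h'.2.2
          rw [map_sub, map_sub] at h10
          omega

theorem e3 : S_E3 σ := fun x z hz hi => e3aux σ _ x z le_rfl hz hi

end Pool.Agent.W293.DC
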